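import Pool.Agent.R498.MT.Inst

set_option autoImplicit false

/-!
# Clusters of almost primes `x ^ 2 + 1`, `x ^ 2 + 3` in narrow progressions
-/

namespace Pool.Agent.Results.MP_2dba45_nt.Clusters

open Filter

/-- `x ^ 2 + 1` has at most three prime factors, all of them at least `w`, and `x ^ 2 + 3` has at most
`r` prime factors, all of them at least `v`; prime factors are counted with multiplicity. -/
def AlmostPrimePair (r : ℕ) (w v : ℝ) (x : ℕ) : Prop :=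
  ((x ^ 2 + 1).primeFactorsList.length ≤ 3 ∧ ∀ p : ℕ, p.Prime → p ∣ x ^ 2 + 1 → w ≤ p) ∧
    (x ^ 2 + 3).primeFactorsList.length ≤ r ∧ ∀ p : ℕ, p.Prime → p ∣ x ^ 2 + 3 → v ≤ p

/-- **A theorem of Maynard-Tao type for `x ^ 2 + 1`, `x ^ 2 + 3`.** For every `m` there is `K` such
that, for every finite set `S` of at least `K` nonnegative integers, there are `r` and `δ > 0`, and for
every `l` there is an exponent `B`, such that for all large `N` there are a subset `H` of `S` with `m`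
elements and an arithmetic progression `n, n + d, ..., n + (l - 1) d` in `(N, N + N ^ (3 / 4)]` with
difference `1 ≤ d ≤ (log N) ^ B` such that for all its terms `x` and all `h ∈ H` the number
`(x + h) ^ 2 + 1` has at most three prime factors, all of them at least `N ^ (73 / 400)`, and
`(x + h) ^ 2 + 3` has at most `r` prime factors, all of them at least `N ^ δ`. -/
theorem result (m : ℕ) : ∃ K : ℕ, ∀ S : Finset ℕ, K ≤ S.card →
    ∃ (r : ℕ) (δ : ℝ), 0 < δ ∧ ∀ l : ℕ, ∃ B : ℕ, ∀ᶠ N : ℕ in atTop,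
    ∃ H ⊆ S, H.card = m ∧ ∃ n d : ℕ, 1 ≤ d ∧ (d : ℝ) ≤ Real.log N ^ B ∧
      ∀ j < l, N < n + j * d ∧ ((n + j * d : ℕ) : ℝ) ≤ N + (N : ℝ) ^ (3 / 4 : ℝ) ∧
        ∀ h ∈ H, AlmostPrimePair r ((N : ℝ) ^ (73 / 400 : ℝ)) ((N : ℝ) ^ δ) (n + j * d + h) := by
  have hP : Pool.Agent.Y882.SI.QF 1 * Pool.Agent.Y882.SI.QF 3 ≠ 0 :=
    mul_ne_zero (Pool.Agent.R498.MT.QF_ne 1) (Pool.Agent.R498.MT.QF_ne 3)
  have hev : ∀ n : ℤ, (Pool.Agent.Y882.SI.QF 1 * Pool.Agent.Y882.SI.QF 3).eval n =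
      (n ^ 2 + 1) * (n ^ 2 + 3) := fun n => by
    rw [Polynomial.eval_mul, Pool.Agent.Y882.SI.QF_eval, Pool.Agent.Y882.SI.QF_eval]
  obtain ⟨K, hK⟩ := Pool.Agent.R498.MT.quad_all 1 (by rintro ⟨r, hr⟩; nlinarith [mul_self_nonneg r])
    (Pool.Agent.Y882.SI.QF 1 * Pool.Agent.Y882.SI.QF 3) hP
    (fun p hp => by
      by_cases h3 : p = 3
      · refine ⟨1, fun h => ?_⟩
        rw [hev, h3] at h
        norm_num at h
      · refine ⟨0, fun h => ?_⟩
        rw [hev] at h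
        norm_num at h
        have h5 : p ∣ 3 := by exact_mod_cast h
        exact h3 ((Nat.prime_dvd_prime_iff_eq hp Nat.prime_three).1 h5))
    (fun p _ n hd => by rw [hev]; exact hd.mul_right _) m
  refine ⟨K, fun S hS => ?_⟩
  obtain ⟨δ, hδ, hl⟩ := hK S hS
  obtain ⟨r, hr⟩ := exists_nat_ge (3 / δ)
  refine ⟨r, δ, hδ, fun l => ?_⟩
  obtain ⟨B, hN⟩ := hl (l + 2) (by omega)
  refine ⟨B, ?_⟩
  filter_upwards [hN, eventually_ge_atTop (13 + S.sup id)] with N hN hN13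
  obtain ⟨H, hH, hHc, n, d, h1, h2, h3, h4, h5⟩ := hN
  have hNr : (13 : ℝ) ≤ N := by
    have : 13 ≤ N := by omega
    exact_mod_cast this
  have hN0 : (0 : ℝ) < N := by linarith
  have hin : ∀ j < l, ((n + j * d : ℕ) : ℝ) ≤ N + (N : ℝ) ^ (3 / 4 : ℝ) := by
    intro j hj
    refine le_trans ?_ h2
    have : n + j * d ≤ n + (l + 2 - 1) * d := by
      have := Nat.mul_le_mul_right d (show j ≤ l + 2 - 1 by omega)
      omega
    exact_mod_cast this
  refine ⟨H, hH, hHc, n, d, h3, h4, fun j hj => ⟨by omega, hin j hj, fun h hh => ?_⟩⟩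
  obtain ⟨h6, h7, h8⟩ := h5 j (by omega) h hh
  have e : (((n + j * d + h : ℕ) : ℤ) ^ 2 + 1).natAbs = (n + j * d + h) ^ 2 + 1 := by
    have : ((n + j * d + h : ℕ) : ℤ) ^ 2 + 1 = (((n + j * d + h) ^ 2 + 1 : ℕ) : ℤ) := by
      push_cast; ring
    rw [this, Int.natAbs_natCast]
  rw [e] at h6
  have h9 : ∀ p : ℕ, p.Prime → p ∣ (n + j * d + h) ^ 2 + 3 → (N : ℝ) ^ δ ≤ p := by
    intro p hp hpd
    apply h8 p hp
    rw [hev]
    have : (p : ℤ) ∣ ((n + j * d + h : ℕ) : ℤ) ^ 2 + 3 := by exact_mod_cast hpd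
    exact this.mul_left _
  refine ⟨⟨h6, fun p hp hpd => h7 p hp (by exact_mod_cast hpd)⟩, ?_, h9⟩
  have h10 : (((n + j * d + h) ^ 2 + 3 : ℕ) : ℝ) ≤ (N : ℝ) ^ (3 : ℝ) := by
    have h11 : h ≤ N := by
      have : h ≤ S.sup id := Finset.le_sup (f := id) (hH hh)
      omega
    have h12 : (h : ℝ) ≤ N := by exact_mod_cast h11
    have h13 := hin j hj
    have h14 : (N : ℝ) ^ (3 / 4 : ℝ) ≤ N := by
      calc (N : ℝ) ^ (3 / 4 : ℝ) ≤ (N : ℝ) ^ (1 : ℝ) :=
            Real.rpow_le_rpow_of_exponent_le (by linarith) (by norm_num)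
        _ = N := Real.rpow_one _
    have h15 : ((n + j * d + h : ℕ) : ℝ) ≤ 3 * N := by
      push_cast at h13 ⊢
      linarith
    have h16 : ((n + j * d + h : ℕ) : ℝ) ^ 2 ≤ (3 * N) ^ 2 :=
      pow_le_pow_left₀ (Nat.cast_nonneg _) h15 2
    have h17 : (N : ℝ) ^ (3 : ℝ) = (N : ℝ) ^ 3 := by
      rw [← Real.rpow_natCast]
      norm_num
    rw [h17]
    push_cast at h16 ⊢
    nlinarith
  have h11 := Pool.Agent.R498.MT.omega_le N ((n + j * d + h) ^ 2 + 3) δ 3 (by omega) hδ (by omega)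
    h9 h10
  have h12 := h11.trans hr
  exact_mod_cast h12

end Pool.Agent.Results.MP_2dba45_nt.Clusters
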