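import Pool.Agent.R498.MP.LinC

set_option autoImplicit false

/-!
# Strings of consecutive primes `p` with almost prime `m ^ 2 + 1` and `m ^ 2 + 3`, `m = 2 p`
-/

namespace Pool.Agent.Results.MP_2dba45_nt.PrimeStrings

open Filter

/-- `n` has at most `r` prime factors, counted with multiplicity, all of them at least `w`. -/
def AlmostPrime (r : ℕ) (w : ℝ) (n : ℕ) : Prop :=
  n.primeFactorsList.length ≤ r ∧ ∀ q : ℕ, q.Prime → q ∣ n → w ≤ q

/-- The primes in the interval `[x, x + C]` are exactly the numbers `x + s`, `s ∈ H`. -/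
def PrimePattern (C : ℕ) (H : Finset ℕ) (x : ℕ) : Prop := ∀ y ≤ C, (x + y).Prime ↔ y ∈ H

/-- **Strings of consecutive primes `p ≡ c` modulo `q` with almost prime `(2 p) ^ 2 + 1` and
`(2 p) ^ 2 + 3`.** Let `q` be squarefree and let `c ((2 c) ^ 2 + 1) ((2 c) ^ 2 + 3)` be coprime to `q` (for
instance `q = 1`). For every `m` there are `K`, `r` and `δ > 0` such that, for every finite set `S` of at least `K` nonnegative
integers and every `l`, there is an exponent `B` such that for all large `N` there are a subset `H` of `S`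
with at least `m` elements and an arithmetic progression `n, n + d, ..., n + (l - 1) d` in `(N, 2 N]` with
difference `1 ≤ d ≤ (log N) ^ B` such that for all its terms `x` the primes in `[x, x + max S]` are
exactly the numbers `x + s`, `s ∈ H`, and all these primes `p` are `≡ c` modulo `q` and both numbers
`(2 p) ^ 2 + 1` and `(2 p) ^ 2 + 3` have at most `r` prime factors, all of them at least `N ^ δ`. -/
theorem result (q c : ℕ) (hq : Squarefree q)
    (hc : Nat.Coprime (c * (((2 * c) ^ 2 + 1) * ((2 * c) ^ 2 + 3))) q) (m : ℕ) : ∃ (K r : ℕ) (δ : ℝ), 0 < δ ∧ ∀ S : Finset ℕ, K ≤ S.card → ∀ l : ℕ,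
    ∃ B : ℕ, ∀ᶠ N : ℕ in atTop, ∃ H ⊆ S, m ≤ H.card ∧ ∃ n d : ℕ, 1 ≤ d ∧
      (d : ℝ) ≤ Real.log N ^ B ∧ ∀ j < l, N < n + j * d ∧ n + j * d + S.sup id ≤ 2 * N ∧
        PrimePattern (S.sup id) H (n + j * d) ∧
        ∀ s ∈ H, n + j * d + s ≡ c [MOD q] ∧
          AlmostPrime r ((N : ℝ) ^ δ) ((2 * (n + j * d + s)) ^ 2 + 1) ∧
          AlmostPrime r ((N : ℝ) ^ δ) ((2 * (n + j * d + s)) ^ 2 + 3) := by
  have hev : ∀ n : ℤ, (Pool.Agent.R498.MP.HX 2 1 * Pool.Agent.R498.MP.HX 2 3).eval n =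
      ((2 * n) ^ 2 + 1) * ((2 * n) ^ 2 + 3) := fun n => by
    rw [Polynomial.eval_mul, Pool.Agent.R498.MP.HX_eval, Pool.Agent.R498.MP.HX_eval]
    push_cast
    ring
  obtain ⟨K, r, δ, hδ, hmain⟩ := Pool.Agent.R498.MP.stringsCR
    (Pool.Agent.R498.MP.HX 2 1 * Pool.Agent.R498.MP.HX 2 3)
    (fun n _ => by rw [hev]; positivity)
    (fun p hp => by
      by_contra hcon
      push Not at hcon
      have h1 := hcon 1
      have h2 := hcon 2
      rw [hev] at h1 h2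
      norm_num at h1 h2
      have h3 : (p : ℤ) ∣ 1 := by
        have h4 := dvd_add (h1.mul_left (-203)) (h2.mul_left (11))
        norm_num at h4
        exact_mod_cast h4
      exact hp.one_lt.ne' (Nat.dvd_one.1 (by exact_mod_cast h3))) q c hq (fun p hp hpq => by
      rw [hev]
      refine Pool.Agent.R498.MP.cop_to _ q ?_ p hp hpq
      have e : (c : ℤ) * (((2 * (c : ℤ)) ^ 2 + 1) * ((2 * (c : ℤ)) ^ 2 + 3)) =
          ((c * (((2 * c) ^ 2 + 1) * ((2 * c) ^ 2 + 3)) : ℕ) : ℤ) := by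
        push_cast; ring
      rw [e]
      exact Nat.isCoprime_iff_coprime.2 hc) m
  refine ⟨K, r, δ, hδ, fun S hS l => ?_⟩
  obtain ⟨B, hB⟩ := hmain S hS l
  refine ⟨B, ?_⟩
  filter_upwards [hB] with N hN
  obtain ⟨H, hH, hHm, n, d, h3, h4, h5⟩ := hN
  refine ⟨H, hH, hHm, n, d, h3, h4, fun j hj => ?_⟩
  obtain ⟨g1, g2, g3, g4⟩ := h5 j hj
  refine ⟨g1, g2, g3, fun s hs => ?_⟩
  obtain ⟨gc, hap⟩ := g4 s hs
  rw [hev] at hap
  obtain ⟨-, a1, a2⟩ := Pool.Agent.R498.MP.AP_dvd r _ _ _ hap (dvd_mul_right _ _)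
  obtain ⟨-, b1, b2⟩ := Pool.Agent.R498.MP.AP_dvd r _ _ _ hap (dvd_mul_left _ _)
  have e1 : (2 * ((n + j * d + s : ℕ) : ℤ)) ^ 2 + 1 = (((2 * (n + j * d + s)) ^ 2 + 1 : ℕ) : ℤ) := by
    push_cast; ring
  have e2 : (2 * ((n + j * d + s : ℕ) : ℤ)) ^ 2 + 3 = (((2 * (n + j * d + s)) ^ 2 + 3 : ℕ) : ℤ) := by
    push_cast; ring
  rw [e1] at a1 a2
  rw [e2] at b1 b2
  rw [Int.natAbs_natCast] at a1 b1
  exact ⟨gc, ⟨a1, fun q hq hqd => a2 q hq (by exact_mod_cast hqd)⟩, b1,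
    fun q hq hqd => b2 q hq (by exact_mod_cast hqd)⟩

end Pool.Agent.Results.MP_2dba45_nt.PrimeStrings
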