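import Pool.Agent.R498.RP

set_option autoImplicit false

/-!
# The pairs `m ^ 2 + 1`, `m ^ 2 + 3` of primes around typical elements of the set
-/

namespace Pool.Agent.Results.MP_2dba45_nt.RegularPoints

open Finset Filter

/-- The numbers `m ≥ 1` such that all prime factors of `m ^ 2 + 1` and of `m ^ 2 + 3` are larger than
`m ^ (1 / r)`. For `r ≥ 1` it contains all `m ≥ 1` such that `m ^ 2 + 1` and `m ^ 2 + 3` are primes. -/
def RoughPair (r : ℕ) : Set ℕ :=
  {m | 1 ≤ m ∧ ∀ p : ℕ, p.Prime → (p ∣ m ^ 2 + 1 ∨ p ∣ m ^ 2 + 3) →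
    (m : ℝ) ^ (1 / (r : ℝ)) < (p : ℝ)}


open Classical in
/-- The number of elements of `A` in `(a, b]`. -/
noncomputable def count (A : Set ℕ) (a b : ℕ) : ℕ := ((Finset.Ioc a b).filter (fun m => m ∈ A)).card

/-- All intervals `(m - s, m + t]` with `s, t ≤ Y` of length at least `log ^ k X / c` contain between
`c (s + t) / log ^ k X` and `(s + t) / (c log ^ k X)` elements of `A`. -/
def RightOrder (A : Set ℕ) (k : ℕ) (c : ℝ) (X Y m : ℕ) : Prop :=
  ∀ s t : ℕ, s ≤ Y → t ≤ Y → Real.log X ^ k ≤ c * (s + t) →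
    c * (s + t) / Real.log X ^ k ≤ count A (m - s) (m + t) ∧
      (count A (m - s) (m + t) : ℝ) ≤ (s + t) / (c * Real.log X ^ k)

/-- Up to `δ`, `A` has a constant density on both sides of `m` up to the distance `2 ^ j`. -/
def ConstantDensity (A : Set ℕ) (k : ℕ) (c δ : ℝ) (X m j : ℕ) : Prop :=
  ∃ lam : ℝ, c ≤ lam ∧ lam ≤ 1 / c ∧ ∀ s t : ℕ, s ≤ 2 ^ j → t ≤ 2 ^ j →
    |(count A (m - s) (m + t) : ℝ) - lam * (s + t) / Real.log X ^ k| ≤ δ * 2 ^ j / Real.log X ^ k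

open Classical in
/-- The number of the scales `log ^ k X ≤ 2 ^ j ≤ Y` without this property. -/
noncomputable def badScales (A : Set ℕ) (k : ℕ) (c δ : ℝ) (X Y m : ℕ) : ℕ :=
  ((Finset.range (Nat.log 2 Y + 1)).filter (fun j => Real.log X ^ k ≤ (2 : ℝ) ^ j ∧
    ¬ ConstantDensity A k c δ X m j)).card

/-- The elements of `A` that are not regular points of `A`. -/
def Irregular (A : Set ℕ) (k : ℕ) (c δ : ℝ) (B X Y : ℕ) : Set ℕ :=
  {m | m ∈ A ∧ ¬ (RightOrder A k c X Y m ∧ badScales A k c δ X Y m ≤ B)}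

/-- **Regular points.** Let `0 < θ ≤ 1`, `r ≥ 1` and `ε > 0`; there is `c > 0`, and for `δ > 0` there is
`B`, such that for all large `X`, all `X ^ θ ≤ Y ≤ X / 2` and EVERY set `A` of integers `m` such that
neither `m ^ 2 + 1` nor `m ^ 2 + 3` has a prime factor `≤ m ^ (1 / r)`, for instance the set of all `m`
such that both are prime, all but at most `ε Y / log ^ 2 X` of the elements of `A` in `(X, X + Y]` are
regular points of `A`: all intervals of length between `log ^ 2 X / c` and `Y` around them contain the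
right order of elements of `A`, and `A` has a constant density up to `δ` around them at all but `B` dyadic
scales. -/
theorem result (θ : ℝ) (hθ : 0 < θ) (hθ1 : θ ≤ 1) (r : ℕ) (hr : 1 ≤ r) (ε : ℝ) (hε : 0 < ε) :
    ∃ c : ℝ, 0 < c ∧ ∀ δ : ℝ, 0 < δ → ∃ B : ℕ,
      ∀ᶠ X : ℕ in atTop, ∀ Y : ℕ, (X : ℝ) ^ θ ≤ Y → 2 * Y ≤ X → ∀ A : Set ℕ, A ⊆ RoughPair r →
        (count (Irregular A 2 c δ B X Y) X (X + Y) : ℝ) ≤ ε * (Y / Real.log X ^ 2) := by
  obtain ⟨c, hc, h⟩ := Pool.Agent.R498.RP.final_all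
    (fun i : Fin 2 => Pool.Agent.TH464.PW.quad 1 0 (Pool.Agent.R498.QS.cc i))
    Pool.Agent.R498.QS.sys2 2 (by simp) θ hθ hθ1 r hr ε hε
  refine ⟨c, hc, fun δ hδ => ?_⟩
  obtain ⟨B, hB⟩ := h δ hδ
  refine ⟨B, ?_⟩
  filter_upwards [hB] with X hX Y hXY hYX A hA
  exact hX Y hXY hYX A (fun m hm => ⟨(hA hm).1, fun i p hp hd => by
    rw [Pool.Agent.TH464.PW.quad_eval] at hd
    refine (hA hm).2 p hp ?_
    have e : (1 : ℤ) * (m : ℤ) ^ 2 + 0 * m + Pool.Agent.R498.QS.cc i =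
        (m : ℤ) ^ 2 + Pool.Agent.R498.QS.cc i := by ring
    rw [e] at hd
    fin_cases i
    · left
      have h2 : (p : ℤ) ∣ (m : ℤ) ^ 2 + 1 := hd
      exact_mod_cast h2
    · right
      have h2 : (p : ℤ) ∣ (m : ℤ) ^ 2 + 3 := hd
      exact_mod_cast h2⟩)

end Pool.Agent.Results.MP_2dba45_nt.RegularPoints
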